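import Pool.Agent.Helper27.T4.Crt

/-!
# T4', block M, piece C: one growing family, the linear form
-/

namespace Pool.Agent.Helper54.M

open Finset Pool.Agent.Helper27.T4

variable {ι : Type*} [Fintype ι] {p : ι → ℕ}

theorem NN_div (hp : ∀ i, (p i).Prime) {a b : ι → ℕ} (hab : b ≤ a) :
    NN p a / NN p b = NN p (fun i => a i - b i) := by
  have h : NN p (fun i => a i - b i) * NN p b = NN p a := by
    unfold NN
    rw [← Finset.prod_mul_distrib]
    refine Finset.prod_congr rfl (fun i _ => ?_)
    rw [← pow_add, Nat.sub_add_cancel (hab i)]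
  rw [← h, Nat.mul_div_cancel _ (NN_pos hp b)]

theorem NN_split (hp : ∀ i, (p i).Prime) (hinj : Function.Injective p) (b : ι → ℕ) (f : ι) :
    ∃ M : ℕ, M.Coprime (p f) ∧ NN p b = p f ^ b f * M := by
  classical
  refine ⟨∏ i ∈ Finset.univ.erase f, p i ^ b i, ?_,
    (Finset.mul_prod_erase Finset.univ (fun i => p i ^ b i) (Finset.mem_univ f)).symm⟩
  apply Nat.Coprime.prod_left
  intro i hi
  apply Nat.Coprime.pow_left
  rw [Nat.coprime_primes (hp i) (hp f)]
  intro h
  exact (Finset.ne_of_mem_erase hi) (hinj h)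

/-- one growing family `g`: if `N_b u + p_g^(b_g) β i` is constant modulo `p_g^(a_g)` and `N_b u`
is constant modulo the other `p_f^(a_f)`, then `u` is a linear function of `i` modulo
`N_a / N_b` -/
theorem exists_lin (hp : ∀ i, (p i).Prime) (hinj : Function.Injective p) {a b : ι → ℕ}
    (hab : b ≤ a) (g : ι) (β : ℕ) (hβ : β.Coprime (p g)) :
    ∃ E : ℕ, E.Coprime (p g) ∧ ∀ u u0 i i0 : ℕ,
      (∀ f, f ≠ g → ((NN p b * u : ℕ) : ZMod (p f ^ a f)) = ((NN p b * u0 : ℕ) : ZMod (p f ^ a f))) →
      ((NN p b * u : ℕ) : ZMod (p g ^ a g)) + ((p g ^ b g * (β * i) : ℕ) : ZMod (p g ^ a g)) =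
        ((NN p b * u0 : ℕ) : ZMod (p g ^ a g)) + ((p g ^ b g * (β * i0) : ℕ) : ZMod (p g ^ a g)) →
      (u + E * i0) % (NN p a / NN p b) = (u0 + E * i) % (NN p a / NN p b) := by
  classical
  obtain ⟨M, hMc, hMe⟩ := NN_split hp hinj b g
  obtain ⟨c, hc⟩ : ∃ c : ι → ℕ, c = fun i => a i - b i + 1 := ⟨_, rfl⟩
  have hcp : ∀ i, 0 < c i := by
    intro i
    rw [hc]
    exact Nat.succ_pos _
  set r : ∀ i, ZMod (p i ^ c i) := fun i =>
    if i = g then -((β : ZMod (p i ^ c i)) * (M : ZMod (p i ^ c i))⁻¹) else 0 with hr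
  set E := cv hp hinj c r with hE
  have hEc : ∀ i, ((E : ℕ) : ZMod (p i ^ c i)) = r i := fun i => cv_cast_comp hp hinj c r i
  have hMcc : M.Coprime (p g ^ c g) := Nat.Coprime.pow_right _ hMc
  have h1 : p g ^ c g ∣ M * E + β := by
    rw [← ZMod.natCast_eq_zero_iff]
    push_cast
    rw [hEc g, hr]
    simp only [if_true]
    have h2 := ZMod.coe_mul_inv_eq_one M hMcc
    linear_combination (-(β : ZMod (p g ^ c g))) * h2
  have h2 : ∀ f, f ≠ g → p f ^ c f ∣ E := by
    intro f hf
    rw [← ZMod.natCast_eq_zero_iff, hEc f, hr]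
    simp only [if_neg hf]
  refine ⟨E, ?_, ?_⟩
  · rw [Nat.Coprime, Nat.gcd_comm]
    rw [← Nat.Coprime, Nat.Prime.coprime_iff_not_dvd (hp g)]
    intro hd
    have h3 : p g ∣ M * E + β := (dvd_pow_self _ (hcp g).ne').trans h1
    have h4 : p g ∣ β := (Nat.dvd_add_right (Dvd.dvd.mul_left hd M)).mp h3
    have h5 : (p g).Coprime β := hβ.symm
    exact (Nat.Prime.coprime_iff_not_dvd (hp g)).mp h5 h4
  · intro u u0 i i0 hf hg
    have key : ∀ f, ((u + E * i0 : ℕ) : ZMod (p f ^ (a f - b f))) =
        ((u0 + E * i : ℕ) : ZMod (p f ^ (a f - b f))) := by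
      intro f
      have hdc : p f ^ (a f - b f) ∣ p f ^ c f := by
        rw [hc]
        exact pow_dvd_pow _ (Nat.le_succ _)
      by_cases hfg : f = g
      · subst hfg
        have hcancel : ((M * u + β * i : ℕ) : ZMod (p f ^ (a f - b f))) =
            ((M * u0 + β * i0 : ℕ) : ZMod (p f ^ (a f - b f))) := by
          rw [ZMod.natCast_eq_natCast_iff]
          have h3 : (NN p b * u + p f ^ b f * (β * i)) ≡ (NN p b * u0 + p f ^ b f * (β * i0))
              [MOD p f ^ a f] := by
            rw [← ZMod.natCast_eq_natCast_iff]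
            push_cast
            push_cast at hg
            exact hg
          have h4 : p f ^ a f = p f ^ b f * p f ^ (a f - b f) := by
            rw [← pow_add, Nat.add_sub_cancel' (hab f)]
          rw [hMe, h4] at h3
          have h5 : p f ^ b f * M * u + p f ^ b f * (β * i) = p f ^ b f * (M * u + β * i) := by ring
          have h6 : p f ^ b f * M * u0 + p f ^ b f * (β * i0) = p f ^ b f * (M * u0 + β * i0) := by
            ring
          rw [h5, h6] at h3
          exact Nat.ModEq.mul_left_cancel' (pow_pos (hp f).pos _).ne' h3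
        have hMu : IsUnit (M : ZMod (p f ^ (a f - b f))) := by
          rw [ZMod.isUnit_iff_coprime]
          exact Nat.Coprime.pow_right _ hMc
        have hE0 : (M : ZMod (p f ^ (a f - b f))) * E + β = 0 := by
          have h3 : ((M * E + β : ℕ) : ZMod (p f ^ (a f - b f))) = 0 := by
            rw [ZMod.natCast_eq_zero_iff]
            exact hdc.trans h1
          push_cast at h3
          exact h3
        apply hMu.mul_left_cancel
        push_cast at hcancel ⊢
        linear_combination hcancel + ((i0 : ZMod (p f ^ (a f - b f))) - i) * hE0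
      · obtain ⟨M', hMc', hMe'⟩ := NN_split hp hinj b f
        have h3 : u ≡ u0 [MOD p f ^ (a f - b f)] := by
          have h4 := hf f hfg
          rw [ZMod.natCast_eq_natCast_iff, hMe'] at h4
          have h5 : p f ^ a f = p f ^ b f * p f ^ (a f - b f) := by
            rw [← pow_add, Nat.add_sub_cancel' (hab f)]
          rw [h5, mul_assoc, mul_assoc] at h4
          have h6 := Nat.ModEq.mul_left_cancel' (pow_pos (hp f).pos _).ne' h4
          exact Nat.ModEq.cancel_left_of_coprime
            ((Nat.Coprime.pow_left _ hMc'.symm)) h6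
        have hE0 : ((E : ℕ) : ZMod (p f ^ (a f - b f))) = 0 := by
          rw [ZMod.natCast_eq_zero_iff]
          exact hdc.trans (h2 f hfg)
        have h4 : (u : ZMod (p f ^ (a f - b f))) = u0 := (ZMod.natCast_eq_natCast_iff _ _ _).mpr h3
        push_cast
        rw [hE0, h4]
        ring
    rw [NN_div hp hab]
    have h3 := (natCast_eq_iff hp hinj (fun i => a i - b i) (u + E * i0) (u0 + E * i)).mpr key
    rwa [ZMod.natCast_eq_natCast_iff] at h3

end Pool.Agent.Helper54.M
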