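import Pool.Agent.Helper54.M.Low
import Pool.Agent.Helper33.M.Count

/-!
# T4', block M, piece C: the linear form
-/

namespace Pool.Agent.Helper54.M

open Finset Pool.Agent.Helper27.T4 Pool.Agent.Helper5.ET Pool.Agent.Helper3.M
  Pool.Agent.Helper3.T4
open Pool.Agent.Helper8.MB (Cand codeH Eqn hval Rng YY)

/-- same components outside `f1` and `RR'` -/
def Same (s s' : ℕ) (f1 : Fin 3) (t t0 : Hit) : Prop :=
  ∀ f, f ∉ RR' s s' → f ≠ f1 → t.1.1 f = t0.1.1 f ∧ t.2.1 f = t0.2.1 f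

/-- the product of the two primes of the old family -/
def pd (f1 : Fin 3) (t : Hit) : ℕ := t.1.1 f1 * t.2.1 f1

/-- the modulus at which the windows of both states vanish, one digit more -/
def md (s' : ℕ) (f1 : Fin 3) : ℕ := pr f1 ^ (cnt f1 (sl s') + 1)

theorem same_hv {s s' b : ℕ} {f1 f0 : Fin 3} (h : Meso s s' b f1 f0) (w : Key → ℕ) {t t0 : Hit}
    (hs : Same s s' f1 t t0) {f : Fin 3} (hf : f ∉ RR' s s') :
    hv s w f t.1.1 = hv s w f t0.1.1 ∧ hv s' w f t.2.1 = hv s' w f t0.2.1 := by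
  obtain ⟨n1, n2⟩ := not_pre h hf
  constructor
  · refine hv_congr s w f _ _ ?_
    intro g hg
    exact (hs g (h.off f hf g (Finset.mem_union_left _ hg)) (fun hc => n1 (hc ▸ hg))).1
  · refine hv_congr s' w f _ _ ?_
    intro g hg
    exact (hs g (h.off f hf g (Finset.mem_union_right _ hg)) (fun hc => n2 (hc ▸ hg))).2

/-- **the linear form**, for two hits -/
theorem linear_form {s s' b : ℕ} {f1 f0 : Fin 3} (h : Meso s s' b f1 f0) (w : Key → ℕ)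
    (n m : ℕ) (hm : m.Coprime (pr f1)) :
    ∃ E : ℕ, E.Coprime (pr f1) ∧ ∀ t t0 : Hit, Lp s s' w n t → Lp s s' w n t0 →
      Same s s' f1 t t0 → pd f1 t % md s' f1 = m → pd f1 t0 % md s' f1 = m →
      (uu s s' t + E * (pd f1 t0 / md s' f1)) % QQ s' =
        (uu s s' t0 + E * (pd f1 t / md s' f1)) % QQ s' := by
  have hss := h.hss
  have hcc : ∀ f, cnt f (se s') ≤ cnt f (se s) := fun f => cnt_mono f (se_mono hss)
  obtain ⟨β, hβ, hgrow⟩ := grow (pr_prime f1) (pr_ne_two f1) (cnt f1 (se s')) (cnt f1 (sl s')) m hm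
    ((hcc f1).trans (h.grow f1))
  obtain ⟨E, hE, hlin⟩ := exists_lin pr_prime pr_inj (a := av (se s')) (b := av (sl s'))
    (fun f => cnt_mono f (sl_le_se s')) f1 β hβ
  refine ⟨E, hE, ?_⟩
  intro t t0 ht ht0 hs h1 h2
  have h3 : f1 ∉ RR' s s' := f1_not_mem h
  refine hlin (uu s s' t) (uu s s' t0) _ _ ?_ ?_
  · intro f hf
    by_cases hfR : f ∈ RR' s s'
    · have hz : ∀ u : ℕ, ((NN pr (av (sl s')) * u : ℕ) : ZMod (pr f ^ av (se s') f)) = 0 := by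
        intro u
        rw [ZMod.natCast_eq_zero_iff]
        have h4 : av (se s') f = av (sl s') f := stat_se h f hfR
        rw [h4]
        exact Dvd.dvd.mul_right (pow_dvd_NN pr (av (sl s')) f) u
      rw [hz, hz]
    · have e1 := ht.comp f hfR (cnt f (se s')) le_rfl
      have e2 := ht0.comp f hfR (cnt f (se s')) le_rfl
      obtain ⟨g1, g2⟩ := same_hv h w hs hfR
      rw [g1, g2, (hs f hfR hf).1, (hs f hfR hf).2] at e1
      have e3 := e1.symm.trans e2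
      have e4 : ((Nj (sl s') * uu s s' t : ℕ) : ZMod (pr f ^ cnt f (se s'))) =
          ((Nj (sl s') * uu s s' t0 : ℕ) : ZMod (pr f ^ cnt f (se s'))) := by
        linear_combination e3
      exact e4
  · have e1 := ht.comp f1 h3 (cnt f1 (se s')) le_rfl
    have e2 := ht0.comp f1 h3 (cnt f1 (se s')) le_rfl
    obtain ⟨g1, g2⟩ := same_hv h w hs h3
    rw [g1, g2] at e1
    have l1 := Lg_mul (pr_prime f1) (pr_ne_two f1) (cnt f1 (se s')) _ _ (ht.c1 f1 h3)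
      (ht.c2 f1 h3)
    have l2 := Lg_mul (pr_prime f1) (pr_ne_two f1) (cnt f1 (se s')) _ _ (ht0.c1 f1 h3)
      (ht0.c2 f1 h3)
    have k1 : t.1.1 f1 * t.2.1 f1 = m + pd f1 t / md s' f1 * pr f1 ^ (cnt f1 (sl s') + 1) := by
      have := Nat.mod_add_div (pd f1 t) (md s' f1)
      rw [h1, mul_comm (md s' f1)] at this
      exact this.symm
    have k2 : t0.1.1 f1 * t0.2.1 f1 = m + pd f1 t0 / md s' f1 * pr f1 ^ (cnt f1 (sl s') + 1) := by
      have := Nat.mod_add_div (pd f1 t0) (md s' f1)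
      rw [h2, mul_comm (md s' f1)] at this
      exact this.symm
    rw [k1, hgrow] at l1
    rw [k2, hgrow] at l2
    have e3 := e1.symm.trans e2
    change ((Nj (sl s') * uu s s' t : ℕ) : ZMod (pr f1 ^ cnt f1 (se s'))) +
      ((pr f1 ^ cnt f1 (sl s') * (β * (pd f1 t / md s' f1)) : ℕ) :
        ZMod (pr f1 ^ cnt f1 (se s'))) =
      ((Nj (sl s') * uu s s' t0 : ℕ) : ZMod (pr f1 ^ cnt f1 (se s'))) +
      ((pr f1 ^ cnt f1 (sl s') * (β * (pd f1 t0 / md s' f1)) : ℕ) :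
        ZMod (pr f1 ^ cnt f1 (se s')))
    linear_combination e3 + l1 - l2

theorem QQ_pos (s' : ℕ) : 0 < QQ s' := by
  unfold QQ
  exact Nat.div_pos (Nj_le (sl_le_se s')) (Nj_pos _)

/-- the linear form for all hits with a property `P` which implies `Lp` -/
theorem lin_form_of {s s' b : ℕ} {f1 f0 : Fin 3} (h : Meso s s' b f1 f0) (w : Key → ℕ) (n : ℕ)
    (P : Hit → Prop) (hP : ∀ q, P q → Lp s s' w n q) (xd xd' : Fin 3 → ℕ) (t : ℕ) :
    ∃ α E : ℕ, E.Coprime (pr f1) ∧ ∀ q : Hit, P q →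
      (∀ f, f ∉ RR' s s' → f ≠ f1 → q.1.1 f = xd f ∧ q.2.1 f = xd' f) →
      (q.1.1 f1 * q.2.1 f1) % pr f1 ^ (cnt f1 (sl s') + 1) = t →
      (q.2.2 + Nj (sl s) / Nj (sl s') * q.1.2) % QQ s' =
        (α + E * ((q.1.1 f1 * q.2.1 f1) / pr f1 ^ (cnt f1 (sl s') + 1))) % QQ s' := by
  by_cases hex : ∃ q : Hit, P q ∧
      (∀ f, f ∉ RR' s s' → f ≠ f1 → q.1.1 f = xd f ∧ q.2.1 f = xd' f) ∧
      (q.1.1 f1 * q.2.1 f1) % pr f1 ^ (cnt f1 (sl s') + 1) = t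
  · obtain ⟨q0, hp0, hd0, ht0⟩ := hex
    have h3 : f1 ∉ RR' s s' := f1_not_mem h
    have hL0 := hP q0 hp0
    have htc : t.Coprime (pr f1) := by
      rw [← ht0]
      exact mod_coprime _ _ (Nat.Coprime.mul_left (hL0.c1 f1 h3) (hL0.c2 f1 h3))
    obtain ⟨E, hE, hlin⟩ := linear_form h w n t htc
    refine ⟨uu s s' q0 + (QQ s' - 1) * (E * (pd f1 q0 / md s' f1)), E, hE, ?_⟩
    intro q hp hd ht
    have hsame : Same s s' f1 q q0 := by
      intro f hf hf1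
      obtain ⟨a1, a2⟩ := hd f hf hf1
      obtain ⟨b1, b2⟩ := hd0 f hf hf1
      exact ⟨a1.trans b1.symm, a2.trans b2.symm⟩
    have e1 : uu s s' q + E * (pd f1 q0 / md s' f1) ≡ uu s s' q0 + E * (pd f1 q / md s' f1)
        [MOD QQ s'] := hlin q q0 (hP q hp) hL0 hsame ht ht0
    have hQ := QQ_pos s'
    obtain ⟨X, hX⟩ : ∃ X, X = E * (pd f1 q0 / md s' f1) := ⟨_, rfl⟩
    rw [← hX] at e1 ⊢
    have e4 := Nat.ModEq.add_right ((QQ s' - 1) * X) e1
    have e5 : uu s s' q + X + (QQ s' - 1) * X = uu s s' q + QQ s' * X := by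
      obtain ⟨Q, hQe⟩ : ∃ Q, QQ s' = Q + 1 := ⟨QQ s' - 1, by omega⟩
      rw [hQe, Nat.add_sub_cancel]
      ring
    rw [e5] at e4
    have e6 : uu s s' q + QQ s' * X ≡ uu s s' q [MOD QQ s'] := by
      unfold Nat.ModEq
      rw [Nat.add_mul_mod_self_left]
    have e7 := e6.symm.trans e4
    have e8 : uu s s' q0 + E * (pd f1 q / md s' f1) + (QQ s' - 1) * X =
        uu s s' q0 + (QQ s' - 1) * X + E * (pd f1 q / md s' f1) := by ring
    rw [e8] at e7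
    exact e7
  · refine ⟨0, 1, Nat.coprime_one_left _, ?_⟩
    intro q hp hd ht
    exact absurd ⟨q, hp, hd, ht⟩ hex

variable {s s' b : ℕ} {f1 f0 : Fin 3}

/-- **(C)**: the linear form, `LinForm` of helper33 -/
theorem lin_form' (h : Meso s s' b f1 f0) (w0 : Key → ℕ) (n : ℕ) :
    Pool.Agent.Helper33.MD.LinForm s s' f1 w0 n := by
  intro xd xd' t
  obtain ⟨α, E, hE, hl⟩ := lin_form_of h w0 n
    (fun q => q.1.1 ∈ XX s ∧ q.2.1 ∈ XX s' ∧ ∃ r r', Eqn s s' n (hval s w0 (RR s s') r q.1.1)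
      (hval s' w0 (RR' s s') r' q.2.1) q)
    (fun q hq => by
      obtain ⟨hx, hx', r, r', he⟩ := hq
      exact lp_of_eqn h w0 n q r r' hx hx' he) xd xd' t
  refine ⟨α, E, hE, ?_⟩
  intro q r r' hx hx' he hd ht
  exact hl q ⟨hx, hx', r, r', he⟩ hd ht

/-- **(C)**, for the data `Dat` -/
theorem lin_form_dat (h : Meso s s' b f1 f0) (w : Key → ℕ) (V V' : Finset ℕ) (n : ℕ)
    (xd xd' : Fin 3 → ℕ) (t : ℕ) : ∃ α E : ℕ, E.Coprime (pr f1) ∧
    ∀ d ∈ Dat s s' w V V' n,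
      (∀ f, f ∉ RR' s s' → f ≠ f1 → d.1.1.1 f = xd f ∧ d.1.2.1 f = xd' f) →
      (d.1.1.1 f1 * d.1.2.1 f1) % pr f1 ^ (cnt f1 (sl s') + 1) = t →
      (d.1.2.2 + Nj (sl s) / Nj (sl s') * d.1.1.2) % QQ s' =
        (α + E * ((d.1.1.1 f1 * d.1.2.1 f1) / pr f1 ^ (cnt f1 (sl s') + 1))) % QQ s' := by
  obtain ⟨α, E, hE, hl⟩ := lin_form_of h w n (fun q => ∃ y, (q, y) ∈ Dat s s' w V V' n)
    (fun q hq => by
      obtain ⟨y, hy⟩ := hq
      exact lp_of_dat h w V V' n (q, y) hy) xd xd' t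
  refine ⟨α, E, hE, ?_⟩
  intro d hd
  exact hl d.1 ⟨d.2, hd⟩

/-- the equation of a candidate with the fresh values `r`, `r'` -/
def EqF (s s' : ℕ) (w0 : Key → ℕ) (n : ℕ) (q : Hit) (r r' : Fin 3 → ℕ) : Prop :=
  Eqn s s' n (hval s w0 (RR s s') r q.1.1) (hval s' w0 (RR' s s') r' q.2.1) q

/-- **(C)**, the frame statement -/
theorem lin_form (h : Meso s s' b f1 f0) (w0 : Key → ℕ) (n : ℕ) (xd xd' : Fin 3 → ℕ) (t : ℕ) :
    ∃ α E : ℕ, E.Coprime (pr f1) ∧ ∀ (q : Hit) (r r' : Fin 3 → ℕ), q.1.1 ∈ XX s → q.2.1 ∈ XX s' →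
      EqF s s' w0 n q r r' →
      (∀ f, f ∉ RR' s s' → f ≠ f1 → q.1.1 f = xd f ∧ q.2.1 f = xd' f) →
      (q.1.1 f1 * q.2.1 f1) % pr f1 ^ (cnt f1 (sl s') + 1) = t →
      (q.2.2 + Nj (sl s) / Nj (sl s') * q.1.2) % QQ s' =
        (α + E * ((q.1.1 f1 * q.2.1 f1) / pr f1 ^ (cnt f1 (sl s') + 1))) % QQ s' :=
  lin_form' h w0 n xd xd' t

/-- **(D)** -/
theorem data_count (h : Meso s s' b f1 f0) (w0 : Key → ℕ) (V V' : Finset ℕ) (B1 B2 R : ℕ)
    (hW : Win s s' f1 V V' B1 B2 R) (n : ℕ) :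
    ((YY s s' w0 (RR s s') (RR' s s') V V' n).card : ℝ) ≤
      C0 * II1 s s' f1 * B1 * B2 *
        ((Nj (se s') : ℝ) / Nj (se s) + ((MM pr (av (se s)) (RR s s') : ℝ))⁻¹) *
        ((MM pr (av (se s)) (RR s s') : ℝ) * MM pr (av (se s')) (RR' s s')) :=
  Pool.Agent.Helper33.MD.data_count_of h w0 V V' B1 B2 R hW n (lin_form' h w0 n)

end Pool.Agent.Helper54.M
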