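import Pool.Agent.Helper54.M.Crt
import Pool.Agent.Helper3.M.Defs
import Pool.Agent.Helper8.MB.Defs

/-!
# T4', block M, piece C: facts about a hit off the static families
-/

namespace Pool.Agent.Helper54.M

open Finset Pool.Agent.Helper27.T4 Pool.Agent.Helper5.ET Pool.Agent.Helper3.M
  Pool.Agent.Helper3.T4
open Pool.Agent.Helper8.MB (codeH Eqn hval cast_codeH_red)

theorem cnt_mono (f : Fin 3) {y z : ℕ} (h : y ≤ z) : cnt f y ≤ cnt f z :=
  Finset.card_le_card (Finset.filter_subset_filter _ (Finset.range_subset_range.mpr h))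

theorem tau_mono : Monotone tau := monotone_nat_of_le_succ (fun c => by
  rw [tau]
  exact Nat.le_add_right _ _)

theorem sl_le_se (s : ℕ) : sl s ≤ se s := tau_mono (by omega)

theorem sl_mono {s s' : ℕ} (h : s' ≤ s) : sl s' ≤ sl s := tau_mono (by omega)

theorem se_mono {s s' : ℕ} (h : s' + 2 ≤ s) : se s' ≤ se s := tau_mono (by omega)

theorem cnt_eq_of (f : Fin 3) {y z : ℕ} (h : y ≤ z) (h1 : ∀ t, y ≤ t → t < z → own t ≠ f) :
    cnt f z = cnt f y := by
  unfold cnt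
  congr 1
  ext t
  simp only [Finset.mem_filter, Finset.mem_range]
  constructor
  · rintro ⟨a, b⟩
    refine ⟨?_, b⟩
    by_contra hc
    exact h1 t (by omega) a b
  · rintro ⟨a, b⟩
    exact ⟨by omega, b⟩

theorem cnt_lt_of (f : Fin 3) {y z : ℕ} (h : y < z) (h1 : own y = f) : cnt f y < cnt f z := by
  unfold cnt
  apply Finset.card_lt_card
  rw [Finset.ssubset_iff_of_subset
    (Finset.filter_subset_filter _ (Finset.range_subset_range.mpr h.le))]
  refine ⟨y, ?_, ?_⟩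
  · simp only [Finset.mem_filter, Finset.mem_range]
    exact ⟨h, h1⟩
  · simp

theorem Nj_dvd {y z : ℕ} (h : y ≤ z) : Nj y ∣ Nj z := NN_dvd pr (fun f => cnt_mono f h)

theorem Nj_pos (y : ℕ) : 0 < Nj y := NN_pos pr_prime _

theorem Nj_le {y z : ℕ} (h : y ≤ z) : Nj y ≤ Nj z := Nat.le_of_dvd (Nj_pos z) (Nj_dvd h)

section facts

variable {s s' b : ℕ} {f1 f0 : Fin 3} (h : Meso s s' b f1 f0)

include h

theorem f1_mem_Pg : f1 ∈ Pg s s' := by
  rw [Pg, Finset.mem_filter]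
  refine ⟨Finset.mem_univ _, ?_⟩
  exact cnt_lt_of f1 (lt_of_lt_of_le h.lb h.bl) (h.own1 _ le_rfl h.lb)

theorem f1_not_mem : f1 ∉ RR' s s' := by
  intro hf
  rw [RR', Finset.mem_filter] at hf
  exact hf.2.1 (f1_mem_Pg h)

theorem stat_se (f : Fin 3) (hf : f ∈ RR' s s') : cnt f (se s') = cnt f (sl s') := by
  have h1 := h.statR f hf
  have hss := h.hss
  have h2 : cnt f (se s') ≤ cnt f (se s) := cnt_mono f (se_mono hss)
  have h3 : cnt f (sl s') ≤ cnt f (se s') := cnt_mono f (sl_le_se s')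
  omega

theorem grown_eq {f : Fin 3} (hf : f ∈ Pg s s') (hf1 : f ≠ f1) : f = f0 ∧ b < sl s := by
  rw [Pg, Finset.mem_filter] at hf
  have hf := hf.2
  by_contra hc
  have hlb := h.lb
  have hbl := h.bl
  have : cnt f (sl s) = cnt f (sl s') := by
    refine cnt_eq_of f (hlb.le.trans hbl) ?_
    intro t h1 h2 h3
    rcases Nat.lt_or_ge t b with h4 | h4
    · exact hf1 (h3.symm.trans (h.own1 t h1 h4))
    · exact hc ⟨h3.symm.trans (h.own0 t h4 h2), by omega⟩
  omega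

/-- the old family does not hash the families off `RR'` -/
theorem not_pre {f : Fin 3} (hf : f ∉ RR' s s') : f1 ∉ pre (sl s) f ∧ f1 ∉ pre (sl s') f := by
  by_cases h1 : f = f1
  · subst h1
    constructor
    · intro hm
      have := h.rank f f (Finset.mem_union_left _ hm)
      omega
    · intro hm
      have := h.rank f f (Finset.mem_union_right _ hm)
      omega
  · by_cases hP : f ∈ Pg s s'
    · obtain ⟨h2, h3⟩ := grown_eq h hP h1
      have h4 := h.rank01 h3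
      rw [← h2] at h4
      constructor
      · intro hm
        have := h.rank f f1 (Finset.mem_union_left _ hm)
        omega
      · intro hm
        have := h.rank f f1 (Finset.mem_union_right _ hm)
        omega
    · have hf' : f ∉ RR s s' := fun hc => hf (h.sub hc)
      rw [RR', Finset.mem_filter] at hf
      rw [RR, Finset.mem_filter] at hf'
      constructor
      · intro hm
        apply hf'
        refine ⟨Finset.mem_univ _, hP, ?_⟩
        rw [Finset.not_disjoint_iff]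
        exact ⟨f1, hm, f1_mem_Pg h⟩
      · intro hm
        apply hf
        refine ⟨Finset.mem_univ _, hP, ?_⟩
        rw [Finset.not_disjoint_iff]
        exact ⟨f1, hm, f1_mem_Pg h⟩

end facts

theorem hv_congr (s : ℕ) (w : Key → ℕ) (f : Fin 3) (x y : Fin 3 → ℕ)
    (hxy : ∀ g ∈ pre (sl s) f, x g = y g) : hv s w f x = hv s w f y := by
  unfold hv
  congr 3
  funext g
  unfold mask
  by_cases hg : g ∈ pre (sl s) f
  · rw [if_pos hg, if_pos hg, hxy g hg]
  · rw [if_neg hg, if_neg hg]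

/-- the joint window value `v' + q v` -/
def uu (s s' : ℕ) (t : Hit) : ℕ := t.2.2 + Nj (sl s) / Nj (sl s') * t.1.2

theorem uu_eq {s s' : ℕ} (h : s' ≤ s) (t : Hit) :
    Nj (sl s') * uu s s' t = Nj (sl s) * t.1.2 + Nj (sl s') * t.2.2 := by
  unfold uu
  have h1 := Nat.div_mul_cancel (Nj_dvd (sl_mono h))
  calc Nj (sl s') * (t.2.2 + Nj (sl s) / Nj (sl s') * t.1.2) =
      (Nj (sl s) / Nj (sl s') * Nj (sl s')) * t.1.2 + Nj (sl s') * t.2.2 := by ring
    _ = _ := by rw [h1]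

/-- what is used about a hit, off `RR'` -/
structure Lp (s s' : ℕ) (w : Key → ℕ) (n : ℕ) (t : Hit) : Prop where
  c1 : ∀ f ∉ RR' s s', (t.1.1 f).Coprime (pr f)
  c2 : ∀ f ∉ RR' s s', (t.2.1 f).Coprime (pr f)
  comp : ∀ f ∉ RR' s s', ∀ c, c ≤ cnt f (se s') → ((n : ℕ) : ZMod (pr f ^ c)) =
    (Lg (pr f) c (t.1.1 f) + ((hv s w f t.1.1 : ℕ) : ZMod (pr f ^ c))) +
    (Lg (pr f) c (t.2.1 f) + ((hv s' w f t.2.1 : ℕ) : ZMod (pr f ^ c))) +
    ((Nj (sl s') * uu s s' t : ℕ) : ZMod (pr f ^ c))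

theorem lp_of_eqn {s s' b : ℕ} {f1 f0 : Fin 3} (h : Meso s s' b f1 f0) (w : Key → ℕ) (n : ℕ)
    (q : Hit) (r r' : Fin 3 → ℕ) (hx : q.1.1 ∈ XX s) (hx' : q.2.1 ∈ XX s')
    (he : Eqn s s' n (hval s w (RR s s') r q.1.1) (hval s' w (RR' s s') r' q.2.1) q) :
    Lp s s' w n q := by
  have hX : ∀ f, (q.1.1 f).Coprime (pr f) := fun f => (Pool.Agent.Helper8.MB.mem_XX hx f).2.1
  have hX' : ∀ f, (q.2.1 f).Coprime (pr f) := fun f => (Pool.Agent.Helper8.MB.mem_XX hx' f).2.1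
  refine ⟨fun f _ => hX f, fun f _ => hX' f, ?_⟩
  intro f hf c hcc
  have hss := h.hss
  have hf' : f ∉ RR s s' := fun h1 => hf (h.sub h1)
  have hce : c ≤ cnt f (se s) := hcc.trans (cnt_mono f (se_mono hss))
  have h1 := cast_codeH_red s (hval s w (RR s s') r q.1.1) q.1.1 f c hce (hX f)
  have h2 := cast_codeH_red s' (hval s' w (RR' s s') r' q.2.1) q.2.1 f c hcc (hX' f)
  have h3 := uu_eq (s := s) (s' := s') (by omega) q
  have h4 : hval s w (RR s s') r q.1.1 f = hv s w f q.1.1 := by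
    unfold hval
    rw [if_neg hf']
  have h5 : hval s' w (RR' s s') r' q.2.1 f = hv s' w f q.2.1 := by
    unfold hval
    rw [if_neg hf]
  rw [h4] at h1
  rw [h5] at h2
  unfold Eqn at he
  rw [h3, ← h1, ← h2, ← he]
  push_cast
  ring

theorem cmp_red (s : ℕ) (w : Key → ℕ) (x : Fin 3 → ℕ) (f : Fin 3) (c y : ℕ)
    (hc : c ≤ cnt f (se s)) (hx : (x f).Coprime (pr f))
    (hy : ((y : ℕ) : ZMod (pr f ^ av (se s) f)) = Pool.Agent.Helper5.ET.cmp s w x f) :
    ((y : ℕ) : ZMod (pr f ^ c)) = Lg (pr f) c (x f) + ((hv s w f x : ℕ) : ZMod (pr f ^ c)) := by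
  have hc' : c ≤ av (se s) f := hc
  have h2 := congrArg (ZMod.castHom (pow_dvd_pow (pr f) hc') (ZMod (pr f ^ c))) hy
  unfold Pool.Agent.Helper5.ET.cmp at h2
  rw [map_natCast, map_add, map_natCast] at h2
  rw [h2]
  congr 1
  exact Lg_red (pr_prime f) (pr_ne_two f) _ _ _ hx hc

theorem lp_of_dat {s s' b : ℕ} {f1 f0 : Fin 3} (h : Meso s s' b f1 f0) (w : Key → ℕ)
    (V V' : Finset ℕ) (n : ℕ) (d : Hit × (ℕ × ℕ)) (hd : d ∈ Dat s s' w V V' n) :
    Lp s s' w n d.1 := by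
  rw [Dat, Finset.mem_filter, Finset.mem_product, Finset.mem_product, Finset.mem_product,
    Finset.mem_product, Finset.mem_product, Finset.mem_range, Finset.mem_range] at hd
  obtain ⟨⟨⟨⟨hx, hv1⟩, hx', hv1'⟩, hy, hy'⟩, hn, hc, hc'⟩ := hd
  have hX : ∀ f, (d.1.1.1 f).Coprime (pr f) := fun f => (Pool.Agent.Helper8.MB.mem_XX hx f).2.1
  have hX' : ∀ f, (d.1.2.1 f).Coprime (pr f) := fun f => (Pool.Agent.Helper8.MB.mem_XX hx' f).2.1
  refine ⟨fun f _ => hX f, fun f _ => hX' f, ?_⟩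
  intro f hf c hcc
  have hss := h.hss
  have hf' : f ∉ RR s s' := fun h1 => hf (h.sub h1)
  have hce : c ≤ cnt f (se s) := hcc.trans (cnt_mono f (se_mono hss))
  have h1 := cmp_red s w d.1.1.1 f c d.2.1 hce (hX f) (hc f hf')
  have h2 := cmp_red s' w d.1.2.1 f c d.2.2 hcc (hX' f) (hc' f hf)
  have h3 : Nj (sl s') * uu s s' d.1 =
      Nj (sl s) * d.1.1.2 + Nj (sl s') * d.1.2.2 := uu_eq (by omega) _
  rw [h3, ← h1, ← h2, ← hn]
  push_cast
  ring

end Pool.Agent.Helper54.M
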